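import Mathlib

/-! # The Bernoulli shift over a group with base the circle: the place of the smallest label -/

set_option autoImplicit false

open MeasureTheory Filter Topology Set
open scoped ENNReal NNReal

namespace Pool.Agent.H201.Bn

instance circleProb : IsProbabilityMeasure (volume : Measure UnitAddCircle) := ⟨UnitAddCircle.measure_univ⟩

/-- the representative in `[0, 1)` -/
noncomputable def rep (x : UnitAddCircle) : ℝ := (AddCircle.equivIco 1 0 x : ℝ)

lemma rep_coe (t : ℝ) : rep (t : UnitAddCircle) = Int.fract t := by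
  have := AddCircle.coe_equivIco_mk_apply (p := (1 : ℝ)) t
  rw [div_one, mul_one] at this
  exact this

lemma coe_rep (x : UnitAddCircle) : ((rep x : ℝ) : UnitAddCircle) = x := AddCircle.coe_equivIco

lemma rep_meas : Measurable rep :=
  measurable_subtype_coe.comp (AddCircle.measurableEquivIco (1 : ℝ) 0).measurable

lemma rep_nonneg (x : UnitAddCircle) : 0 ≤ rep x := (AddCircle.equivIco 1 0 x).2.1

lemma rep_lt (x : UnitAddCircle) : rep x < 1 := by
  have := (AddCircle.equivIco (1 : ℝ) 0 x).2.2
  simpa [rep] using this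

/-- the label used for comparison -/
noncomputable def u (q : ℕ) (x : UnitAddCircle) : ℝ := Int.fract (q * rep x)

/-- the label used for the choice of a point -/
noncomputable def fl (q : ℕ) (x : UnitAddCircle) : ℤ := ⌊q * rep x⌋

lemma u_meas (q : ℕ) : Measurable (u q) := measurable_fract.comp (rep_meas.const_mul _)

lemma fl_meas (q : ℕ) : Measurable (fl q) := Int.measurable_floor.comp (rep_meas.const_mul _)

lemma q_rep (q : ℕ) (t : ℝ) : (q : ℝ) * rep (t : UnitAddCircle) = q * t - (q * ⌊t⌋ : ℤ) := by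
  rw [rep_coe, Int.fract]
  push_cast
  ring

lemma u_add (q : ℕ) (hq : 0 < q) (x : UnitAddCircle) (k : ℕ) : u q (x + ((k / q : ℝ) : UnitAddCircle)) = u q x := by
  have hq' : (q : ℝ) ≠ 0 := by exact_mod_cast hq.ne'
  conv_lhs => rw [← coe_rep x, ← AddCircle.coe_add]
  unfold u
  rw [q_rep, Int.fract_sub_intCast]
  have h1 : (q : ℝ) * (rep x + k / q) = q * rep x + (k : ℤ) := by
    push_cast
    field_simp
  rw [h1, Int.fract_add_intCast]

lemma fl_add (q : ℕ) (hq : 0 < q) (x : UnitAddCircle) (k : ℕ) :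
    ((fl q (x + ((k / q : ℝ) : UnitAddCircle)) : ℤ) : ZMod q) = ((fl q x : ℤ) : ZMod q) + k := by
  have hq' : (q : ℝ) ≠ 0 := by exact_mod_cast hq.ne'
  conv_lhs => rw [← coe_rep x, ← AddCircle.coe_add]
  unfold fl
  rw [q_rep, Int.floor_sub_intCast]
  have h1 : (q : ℝ) * (rep x + k / q) = q * rep x + (k : ℤ) := by
    push_cast
    field_simp
  rw [h1, Int.floor_add_intCast]
  push_cast
  simp

lemma circle_singleton (x : UnitAddCircle) : volume ({x} : Set UnitAddCircle) = 0 := by
  have h := AddCircle.volume_closedBall (1 : ℝ) (x := x) 0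
  rw [Metric.closedBall_zero] at h
  rw [h]
  simp

lemma u_level (q : ℕ) (hq : 0 < q) (s : ℝ) : volume {y : UnitAddCircle | u q y = s} = 0 := by
  have hq' : (0 : ℝ) < q := by exact_mod_cast hq
  have h1 : {y : UnitAddCircle | u q y = s} ⊆ ⋃ k ∈ Finset.range q, {(((k + s) / q : ℝ) : UnitAddCircle)} := by
    intro y hy
    have h2 : Int.fract (q * rep y) = s := hy
    have h3 : 0 ≤ (q : ℝ) * rep y := mul_nonneg hq'.le (rep_nonneg y)
    have h4 : (q : ℝ) * rep y < q := by nlinarith [rep_lt y]
    have h5 := Int.floor_add_fract ((q : ℝ) * rep y)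
    have h6 : 0 ≤ ⌊(q : ℝ) * rep y⌋ := Int.floor_nonneg.2 h3
    have h7 : ⌊(q : ℝ) * rep y⌋ < q := by
      rw [Int.floor_lt]
      exact_mod_cast h4
    obtain ⟨k, hk⟩ := Int.eq_ofNat_of_zero_le h6
    simp only [mem_iUnion, mem_singleton_iff, Finset.mem_range, exists_prop]
    refine ⟨k, by omega, ?_⟩
    have h8 : (k + s) / q = rep y := by
      rw [div_eq_iff hq'.ne', ← h2]
      rw [hk] at h5
      push_cast at h5
      linarith
    rw [h8, coe_rep]
  refine measure_mono_null h1 ?_
  refine (measure_biUnion_null_iff (Finset.range q).countable_toSet).2 fun k _ => ?_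
  exact circle_singleton _

variable {Γ : Type} [Group Γ]

/-- The Bernoulli measure. -/
noncomputable def bern (Γ : Type) : Measure (Γ → UnitAddCircle) :=
  Measure.infinitePi fun _ : Γ => (volume : Measure UnitAddCircle)

instance (Γ : Type) : IsProbabilityMeasure (bern Γ) := by
  unfold bern
  infer_instance

lemma bern_reindex {Γ : Type} (π : Γ → Γ) (hπ : Function.Injective π) :
    MeasurePreserving (fun (ω : Γ → UnitAddCircle) h => ω (π h)) (bern Γ) (bern Γ) := by
  refine ⟨by fun_prop, ?_⟩
  have := MeasureTheory.Measure.map_infinitePi_infinitePi_of_inj (P := fun _ : Γ => (volume : Measure UnitAddCircle)) hπ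
  exact this

lemma bern_rotate (Γ : Type) (c : UnitAddCircle) :
    MeasurePreserving (fun (ω : Γ → UnitAddCircle) h => ω h + c) (bern Γ) (bern Γ) := by
  refine ⟨by fun_prop, ?_⟩
  have h1 := Measure.infinitePi_map_pi (fun _ : Γ => (volume : Measure UnitAddCircle))
    (f := fun _ x => x + c) (fun _ => measurable_add_const c)
  have h2 : Measure.map (fun x : UnitAddCircle => x + c) volume = volume := (measurePreserving_add_right volume c).map_eq
  simp only [h2] at h1
  exact h1

lemma tie_null {Γ : Type} (q : ℕ) (hq : 0 < q) {g h : Γ} (hgh : g ≠ h) :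
    bern Γ {ω | u q (ω g) = u q (ω h)} = 0 := by
  have h1 := MeasureTheory.Measure.infinitePi_map_eval_prod (P := fun _ : Γ => (volume : Measure UnitAddCircle)) hgh
  have hmeas : MeasurableSet {p : UnitAddCircle × UnitAddCircle | u q p.1 = u q p.2} :=
    measurableSet_eq_fun ((u_meas q).comp measurable_fst) ((u_meas q).comp measurable_snd)
  have h2 : (Measure.map (fun ω : Γ → UnitAddCircle => (ω g, ω h)) (bern Γ))
      {p : UnitAddCircle × UnitAddCircle | u q p.1 = u q p.2} = 0 := by
    have h3 : Measure.map (fun ω : Γ → UnitAddCircle => (ω g, ω h)) (bern Γ) =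
        (volume : Measure UnitAddCircle).prod volume := h1
    rw [h3, Measure.measure_prod_null hmeas]
    refine Eventually.of_forall fun x => ?_
    have h4 : Prod.mk x ⁻¹' {p : UnitAddCircle × UnitAddCircle | u q p.1 = u q p.2} = {y | u q y = u q x} := by
      ext y
      simp [eq_comm]
    change volume (Prod.mk x ⁻¹' {p : UnitAddCircle × UnitAddCircle | u q p.1 = u q p.2}) = 0
    rw [h4]
    exact u_level q hq _
  rw [Measure.map_apply (by fun_prop) hmeas] at h2
  exact h2

open Classical in
/-- the smallest label of `U` is at `h` -/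
def Mn {Γ : Type} (q : ℕ) (U : Finset Γ) (h : Γ) : Set (Γ → UnitAddCircle) := {ω | ∀ h' ∈ U, u q (ω h) ≤ u q (ω h')}

lemma Mn_meas {Γ : Type} (q : ℕ) (U : Finset Γ) (h : Γ) : MeasurableSet (Mn q U h) := by
  have : Mn q U h = ⋂ h' ∈ U, {ω : Γ → UnitAddCircle | u q (ω h) ≤ u q (ω h')} := by
    ext ω
    simp [Mn]
  rw [this]
  refine Finset.measurableSet_biInter _ fun h' _ => ?_
  exact measurableSet_le ((u_meas q).comp (measurable_pi_apply h)) ((u_meas q).comp (measurable_pi_apply h'))

lemma Mn_eq {Γ : Type} (q : ℕ) (U : Finset Γ) {h h' : Γ} (hh : h ∈ U) (hh' : h' ∈ U) :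
    bern Γ (Mn q U h) = bern Γ (Mn q U h') := by
  classical
  have h1 := (bern_reindex (Equiv.swap h h') (Equiv.injective _)).measure_preimage (Mn_meas q U h).nullMeasurableSet
  rw [← h1]
  congr 1
  ext ω
  simp only [Mn, mem_preimage, mem_ofPred_eq, Equiv.swap_apply_left]
  constructor
  · intro h2 g hg
    have h3 := h2 (Equiv.swap h h' g) (by
      by_cases e1 : g = h
      · rw [e1, Equiv.swap_apply_left]; exact hh'
      · by_cases e2 : g = h'
        · rw [e2, Equiv.swap_apply_right]; exact hh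
        · rw [Equiv.swap_apply_of_ne_of_ne e1 e2]; exact hg)
    rwa [Equiv.swap_apply_self] at h3
  · intro h2 g hg
    apply h2
    by_cases e1 : g = h
    · rw [e1, Equiv.swap_apply_left]; exact hh'
    · by_cases e2 : g = h'
      · rw [e2, Equiv.swap_apply_right]; exact hh
      · rw [Equiv.swap_apply_of_ne_of_ne e1 e2]; exact hg

lemma Mn_le {Γ : Type} (q : ℕ) (hq : 0 < q) (U : Finset Γ) {h : Γ} (hh : h ∈ U) :
    (U.card : ℝ≥0∞) * bern Γ (Mn q U h) ≤ 1 := by
  have h1 : ∑ g ∈ U, bern Γ (Mn q U g) = bern Γ (⋃ g ∈ U, Mn q U g) := by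
    rw [measure_biUnion_finset₀]
    · intro g hg g' hg' hgg
      refine measure_mono_null ?_ (tie_null q hq hgg)
      rintro ω ⟨ha, hb⟩
      exact le_antisymm (ha g' hg') (hb g hg)
    · intro g _
      exact (Mn_meas q U g).nullMeasurableSet
  have h2 : ∑ g ∈ U, bern Γ (Mn q U g) = (U.card : ℝ≥0∞) * bern Γ (Mn q U h) := by
    rw [Finset.sum_congr rfl fun g hg => Mn_eq q U hg hh, Finset.sum_const, nsmul_eq_mul]
  rw [← h2, h1]
  exact prob_le_one

end Pool.Agent.H201.Bn
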