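import Pool.Agent.H201.Bn.Base
import Pool.Graph.R_pool_sql_team_seeded_3997aac3.Q161.MsJ

/-! # From the Bernoulli shift to finite systems -/

set_option autoImplicit false

open MeasureTheory Filter Topology Set
open scoped ENNReal NNReal

namespace Pool.Agent.H201.Bn

open Pool.Agent.Q161.Ms

/-- A measurable set which depends on finitely many coordinates. -/
def Local {Γ : Type} (A : Set (Γ → UnitAddCircle)) : Prop :=
  MeasurableSet A ∧ ∃ F : Finset Γ, ∀ ω ω' : Γ → UnitAddCircle, (∀ h ∈ F, ω h = ω' h) → (ω ∈ A ↔ ω' ∈ A)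

/-- The shift action. -/
def shf {Γ : Type} [Group Γ] (g : Γ) (ω : Γ → UnitAddCircle) : Γ → UnitAddCircle := fun h => ω (h * g)

section

variable {Γ Y : Type} [Group Γ]

open Classical in
/-- the event that the chosen point is in `Z` -/
def D (q : ℕ) (F : Finset Γ) (σ : Γ →* Equiv.Perm Y) (y : ZMod q → Y) (Z : Set Y) : Set (Γ → UnitAddCircle) :=
  {ω | ∃ g ∈ F, ω ∈ Mn q F g ∧ σ g⁻¹ (y ((fl q (ω g) : ℤ) : ZMod q)) ∈ Z}

lemma D_local (q : ℕ) (F : Finset Γ) (σ : Γ →* Equiv.Perm Y) (y : ZMod q → Y) (Z : Set Y) : Local (D q F σ y Z) := by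
  constructor
  · have : D q F σ y Z = ⋃ g ∈ F, Mn q F g ∩
        {ω : Γ → UnitAddCircle | fl q (ω g) ∈ {z : ℤ | σ g⁻¹ (y (z : ZMod q)) ∈ Z}} := by
      ext ω
      simp only [D, mem_iUnion, mem_inter_iff, mem_ofPred_eq, exists_prop]
    rw [this]
    refine Finset.measurableSet_biUnion _ fun g _ => (Mn_meas q F g).inter ?_
    exact ((fl_meas q).comp (measurable_pi_apply g)) (MeasurableSet.of_discrete)
  · refine ⟨F, ?_⟩
    have key : ∀ ω ω' : Γ → UnitAddCircle, (∀ h ∈ F, ω h = ω' h) → ω ∈ D q F σ y Z → ω' ∈ D q F σ y Z := by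
      rintro ω ω' h ⟨g, hg, h1, h2⟩
      refine ⟨g, hg, ?_, ?_⟩
      · intro g' hg'
        rw [← h g hg, ← h g' hg']
        exact h1 g' hg'
      · rw [← h g hg]
        exact h2
    exact fun ω ω' h => ⟨key ω ω' h, key ω' ω fun g hg => (h g hg).symm⟩

lemma D_lower (q : ℕ) (hq : 0 < q) (F : Finset Γ) (hF : F.Nonempty) (σ : Γ →* Equiv.Perm Y) (y : ZMod q ≃ Y) (Z : Set Y) :
    (Nat.card Z : ℝ≥0∞) ≤ q * bern Γ (D q F σ y Z) := by
  classical
  have hNZ : NeZero q := ⟨hq.ne'⟩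
  have hfin : Finite Y := Finite.of_equiv _ y
  have hD : MeasurableSet (D q F σ y Z) := (D_local q F σ y Z).1
  let R : ℕ → (Γ → UnitAddCircle) → (Γ → UnitAddCircle) := fun k ω h => ω h + ((k / q : ℝ) : UnitAddCircle)
  have hR : ∀ k, MeasurePreserving (R k) (bern Γ) (bern Γ) := fun k => bern_rotate Γ _
  have h1 : ∀ ω, (Nat.card Z : ℝ≥0∞) ≤ ∑ k ∈ Finset.range q, (R k ⁻¹' D q F σ y Z).indicator (1 : (Γ → UnitAddCircle) → ℝ≥0∞) ω := by
    intro ω
    obtain ⟨g, hg, hg2⟩ := Finset.exists_min_image F (fun g => u q (ω g)) hF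
    have h2 : ∑ k ∈ Finset.range q, (R k ⁻¹' D q F σ y Z).indicator (1 : (Γ → UnitAddCircle) → ℝ≥0∞) ω =
        (((Finset.range q).filter fun k => R k ω ∈ D q F σ y Z).card : ℝ≥0∞) := by
      rw [Finset.card_filter]
      push_cast
      refine Finset.sum_congr rfl fun k _ => ?_
      simp only [indicator_apply, mem_preimage, Pi.one_apply]
    rw [h2]
    norm_cast
    rw [← Nat.card_eq_finsetCard]
    let I : Z → ((Finset.range q).filter fun k => R k ω ∈ D q F σ y Z) := fun z =>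
      ⟨(y.symm (σ g z) - ((fl q (ω g) : ℤ) : ZMod q)).val, by
        rw [Finset.mem_filter, Finset.mem_range]
        refine ⟨ZMod.val_lt _, g, hg, ?_, ?_⟩
        · intro h hh
          simp only [R]
          rw [u_add q hq, u_add q hq]
          exact hg2 h hh
        · simp only [R]
          rw [fl_add q hq, ZMod.natCast_zmod_val, add_sub_cancel, Equiv.apply_symm_apply, ← Equiv.Perm.mul_apply,
            ← map_mul, inv_mul_cancel, map_one, Equiv.Perm.one_apply]
          exact z.2⟩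
    apply Nat.card_le_card_of_injective I
    intro z z' hzz
    have h3 := congrArg Subtype.val hzz
    simp only [I] at h3
    have h4 := ZMod.val_injective q h3
    have h5 := y.symm.injective (sub_left_injective h4)
    exact Subtype.ext ((σ g).injective h5)
  have h2 : ∫⁻ _ω, (Nat.card Z : ℝ≥0∞) ∂(bern Γ) ≤
      ∫⁻ ω, ∑ k ∈ Finset.range q, (R k ⁻¹' D q F σ y Z).indicator (1 : (Γ → UnitAddCircle) → ℝ≥0∞) ω ∂(bern Γ) := lintegral_mono h1
  rw [lintegral_const, measure_univ, mul_one, lintegral_finsetSum _ (fun k _ =>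
    measurable_one.indicator ((hR k).measurable hD))] at h2
  have h3 : ∀ k ∈ Finset.range q, ∫⁻ ω, (R k ⁻¹' D q F σ y Z).indicator (1 : (Γ → UnitAddCircle) → ℝ≥0∞) ω ∂(bern Γ) =
      bern Γ (D q F σ y Z) := by
    intro k _
    rw [lintegral_indicator_one ((hR k).measurable hD), (hR k).measure_preimage hD.nullMeasurableSet]
  rw [Finset.sum_congr rfl h3, Finset.sum_const, Finset.card_range, nsmul_eq_mul] at h2
  exact h2

/-- the bad event for `w` -/
def Bw [DecidableEq Γ] (q : ℕ) (F : Finset Γ) (w : Γ) : Set (Γ → UnitAddCircle) :=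
  ⋃ h ∈ (F ∪ F.image (· * w)) \ (F ∩ F.image (· * w)), Mn q (F ∪ F.image (· * w)) h

lemma Bw_le [DecidableEq Γ] (q : ℕ) (hq : 0 < q) (F : Finset Γ) (hF : F.Nonempty) (w : Γ) (δ : ℝ)
    (hδ : ((F.filter fun f => f * w ∉ F).card : ℝ) ≤ δ * F.card) :
    bern Γ (Bw q F w) ≤ ENNReal.ofReal (2 * δ) := by
  obtain ⟨U, hU⟩ : ∃ U : Finset Γ, U = F ∪ F.image (· * w) := ⟨_, rfl⟩
  obtain ⟨V, hV⟩ : ∃ V : Finset Γ, V = (F ∪ F.image (· * w)) \ (F ∩ F.image (· * w)) := ⟨_, rfl⟩
  have hFc : (0 : ℝ) < F.card := by exact_mod_cast hF.card_pos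
  have hFU : F.card ≤ U.card := Finset.card_le_card (by rw [hU]; exact Finset.subset_union_left)
  have hVU : V ⊆ U := by rw [hU, hV]; exact Finset.sdiff_subset
  have himg : (F.image (· * w)).card = F.card := Finset.card_image_of_injective _ (mul_left_injective w)
  have h1 : (F.image (· * w) \ F).card = (F.filter fun f => f * w ∉ F).card := by
    have : F.image (· * w) \ F = (F.filter fun f => f * w ∉ F).image (· * w) := by
      ext g
      simp only [Finset.mem_sdiff, Finset.mem_image, Finset.mem_filter]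
      constructor
      · rintro ⟨⟨f, hf, rfl⟩, h2⟩
        exact ⟨f, ⟨hf, h2⟩, rfl⟩
      · rintro ⟨f, ⟨hf, h2⟩, rfl⟩
        exact ⟨⟨f, hf, rfl⟩, h2⟩
    rw [this, Finset.card_image_of_injective _ (mul_left_injective w)]
  have h2 : (F \ F.image (· * w)).card = (F.image (· * w) \ F).card := by
    have a := Finset.card_sdiff_add_card_inter F (F.image (· * w))
    have b := Finset.card_sdiff_add_card_inter (F.image (· * w)) F
    rw [Finset.inter_comm] at b
    omega
  have hVc : (V.card : ℝ) ≤ 2 * δ * F.card := by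
    have h3 : V ⊆ (F \ F.image (· * w)) ∪ (F.image (· * w) \ F) := by
      rw [hV]
      intro g hg
      simp only [Finset.mem_sdiff, Finset.mem_union, Finset.mem_inter] at hg ⊢
      tauto
    have h4 := (Finset.card_le_card h3).trans (Finset.card_union_le _ _)
    rw [h2, h1] at h4
    have h5 : (V.card : ℝ) ≤ 2 * ((F.filter fun f => f * w ∉ F).card : ℝ) := by
      have : V.card ≤ 2 * (F.filter fun f => f * w ∉ F).card := by omega
      exact_mod_cast this
    nlinarith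
  have h3 : bern Γ (Bw q F w) ≤ ∑ h ∈ V, bern Γ (Mn q U h) := by
    unfold Bw
    rw [← hU]
    rw [← hU] at hV
    rw [← hV]
    exact measure_biUnion_finset_le _ _
  have hUc : (0 : ℝ) < U.card := lt_of_lt_of_le hFc (by exact_mod_cast hFU)
  have h4 : ∀ h ∈ V, bern Γ (Mn q U h) ≤ ENNReal.ofReal (1 / U.card) := by
    intro h hh
    have h5 := Mn_le (Γ := Γ) q hq U (hVU hh)
    rw [one_div, ENNReal.ofReal_inv_of_pos hUc, ENNReal.ofReal_natCast]
    rw [← one_div, ENNReal.le_div_iff_mul_le (Or.inl (by exact_mod_cast hUc.ne')) (Or.inl (ENNReal.natCast_ne_top _)),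
      mul_comm]
    exact h5
  calc bern Γ (Bw q F w) ≤ ∑ h ∈ V, bern Γ (Mn q U h) := h3
    _ ≤ ∑ h ∈ V, ENNReal.ofReal (1 / U.card) := Finset.sum_le_sum h4
    _ = ENNReal.ofReal (V.card * (1 / U.card)) := by
        rw [Finset.sum_const, nsmul_eq_mul, ENNReal.ofReal_mul (Nat.cast_nonneg _), ENNReal.ofReal_natCast]
    _ ≤ ENNReal.ofReal (2 * δ) := by
        apply ENNReal.ofReal_le_ofReal
        rw [mul_one_div, div_le_iff₀ hUc]
        have h6 : (F.card : ℝ) ≤ U.card := by exact_mod_cast hFU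
        have h7 : 0 ≤ 2 * δ := by
          by_contra hcon
          push Not at hcon
          have : (V.card : ℝ) < 0 := lt_of_le_of_lt hVc (by nlinarith)
          linarith [Nat.cast_nonneg (α := ℝ) V.card]
        nlinarith

/-- the ties -/
def Ti (Γ : Type) (q : ℕ) : Set (Γ → UnitAddCircle) := ⋃ (p : Γ × Γ) (_ : p.1 ≠ p.2), {ω | u q (ω p.1) = u q (ω p.2)}

lemma Ti_null (Γ : Type) [Countable Γ] (q : ℕ) (hq : 0 < q) : bern Γ (Ti Γ q) = 0 := by
  unfold Ti
  rw [measure_iUnion_null_iff]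
  intro p
  rw [measure_iUnion_null_iff]
  intro hp
  exact tie_null q hq hp

omit [Group Γ] in
lemma unique_min (q : ℕ) (ω : Γ → UnitAddCircle) (hω : ω ∉ Ti Γ q) {U : Finset Γ} {g h : Γ} (hg : g ∈ U) (hh : h ∈ U)
    (h1 : ω ∈ Mn q U g) (h2 : ω ∈ Mn q U h) : g = h := by
  by_contra hne
  apply hω
  unfold Ti
  simp only [mem_iUnion]
  exact ⟨(g, h), hne, le_antisymm (h1 h hh) (h2 g hg)⟩

/-- equivariance off the bad events -/
lemma equivariant [DecidableEq Γ] (q : ℕ) (F : Finset Γ) (σ : Γ →* Equiv.Perm Y) (y : ZMod q → Y)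
    (w : Γ) (ω : Γ → UnitAddCircle) (hω : ω ∉ Ti Γ q) (hw : ω ∉ Bw q F w) (g : Γ) (hg : g ∈ F) (hgm : ω ∈ Mn q F g)
    (Z : Set Y) : shf w ω ∈ D q F σ y Z ↔ σ w (σ g⁻¹ (y ((fl q (ω g) : ℤ) : ZMod q))) ∈ Z := by
  obtain ⟨U, hU⟩ : ∃ U : Finset Γ, U = F ∪ F.image (· * w) := ⟨_, rfl⟩
  obtain ⟨s, hs, hs2⟩ := Finset.exists_min_image U (fun g => u q (ω g)) ⟨g, by rw [hU]; exact Finset.mem_union_left _ hg⟩
  have hsm : ω ∈ Mn q U s := fun h hh => hs2 h hh
  have hs3 : s ∈ F ∩ F.image (· * w) := by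
    by_contra hcon
    apply hw
    unfold Bw
    rw [← hU]
    simp only [mem_iUnion]
    exact ⟨s, Finset.mem_sdiff.2 ⟨hs, hcon⟩, hsm⟩
  rw [Finset.mem_inter] at hs3
  have hsg : s = g := by
    refine unique_min q ω hω hs3.1 hg ?_ hgm
    intro h hh
    exact hsm h (by rw [hU]; exact Finset.mem_union_left _ hh)
  obtain ⟨f, hf, hfs⟩ := Finset.mem_image.1 hs3.2
  have hfs' : f * w = g := by rw [← hsg]; exact hfs
  have hval : σ f⁻¹ (y ((fl q (shf w ω f) : ℤ) : ZMod q)) = σ w (σ g⁻¹ (y ((fl q (ω g) : ℤ) : ZMod q))) := by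
    have h1 : shf w ω f = ω g := by
      unfold shf
      rw [hfs']
    rw [h1, ← Equiv.Perm.mul_apply, ← map_mul]
    congr 2
    rw [← hfs']
    group
  have hfm : shf w ω ∈ Mn q F f := by
    intro h hh
    have h1 : shf w ω f = ω g := by
      unfold shf
      rw [hfs']
    rw [h1]
    have h2 := hsm (h * w) (by rw [hU]; exact Finset.mem_union_right _ (Finset.mem_image_of_mem _ hh))
    rw [hsg] at h2
    exact h2
  constructor
  · rintro ⟨f', hf', hm', hz'⟩
    have : f' = f := by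
      have h1 : f' * w = f * w := by
        refine unique_min q ω hω (U := F.image (· * w)) (Finset.mem_image_of_mem _ hf') (Finset.mem_image_of_mem _ hf) ?_ ?_
        · intro h hh
          obtain ⟨h', hh', rfl⟩ := Finset.mem_image.1 hh
          exact hm' h' hh'
        · intro h hh
          obtain ⟨h', hh', rfl⟩ := Finset.mem_image.1 hh
          exact hfm h' hh'
      exact mul_right_cancel h1
    rw [this, hval] at hz'
    exact hz'
  · intro hz
    exact ⟨f, hf, hfm, by rw [hval]; exact hz⟩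

end

section

variable {Γ I J Θ 𝕜 : Type} [Group Γ] [Fintype J] [RCLike 𝕜]

/-- The uniform rate on the Bernoulli shift for sets which depend on finitely many coordinates. -/
def LocG (w : Θ → 𝕜) (B : Θ → Finset I) (γ : J → I → Γ) (W : ℕ → ℕ → Finset Θ) (c : ℕ → Θ) : Prop :=
  ∀ ε : ℝ, 0 < ε → ∀ Φ : ℕ → ℕ, ∃ K : ℕ, ∀ A : J → Set (Γ → UnitAddCircle), (∀ j, Local (A j)) →
    ∃ N, 1 ≤ N ∧ N ≤ K ∧ bern Γ {ω | ∃ t ∈ W N (Φ N),
      ε < dist (av w B (fun j i => shf (γ j i)) (fun j => (A j).indicator 1) ω t)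
        (av w B (fun j i => shf (γ j i)) (fun j => (A j).indicator 1) ω (c N))} ≤ ENNReal.ofReal ε

theorem loc_fin [Countable Γ] (w : Θ → 𝕜) (B : Θ → Finset I) (γ : J → I → Γ) (W : ℕ → ℕ → Finset Θ) (c : ℕ → Θ)
    (hFT : FT (⊤ : Subgroup Γ)) (h : LocG w B γ W c) : FinG w B γ W c := by
  classical
  intro ε hε Φ
  obtain ⟨K, hK⟩ := h (ε / 2) (by linarith) Φ
  refine ⟨K, ?_⟩
  intro Y _ _ σ b
  obtain ⟨q, hqY⟩ : ∃ q, q = Fintype.card Y := ⟨_, rfl⟩
  have hq : 0 < q := by rw [hqY]; exact Fintype.card_pos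
  have hNZ : NeZero q := ⟨hq.ne'⟩
  have hqR : (0 : ℝ) < q := by exact_mod_cast hq
  let y : ZMod q ≃ Y := Fintype.equivOfCardEq (by rw [ZMod.card, hqY])
  obtain ⟨S, hS⟩ : ∃ S : Finset Γ, S = (Finset.range (K + 1)).biUnion fun N =>
    (insert (c N) (W N (Φ N))).biUnion fun t => (B t ×ˢ (Finset.univ : Finset J)).image fun p => γ p.2 p.1 := ⟨_, rfl⟩
  have hSmem : ∀ N, N ≤ K → ∀ t, (t = c N ∨ t ∈ W N (Φ N)) → ∀ i ∈ B t, ∀ j, γ j i ∈ S := by
    intro N hN t ht i hi j
    rw [hS]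
    refine Finset.mem_biUnion.2 ⟨N, Finset.mem_range.2 (by omega), Finset.mem_biUnion.2 ⟨t, ?_, ?_⟩⟩
    · rw [Finset.mem_insert]
      exact ht
    · exact Finset.mem_image.2 ⟨(i, j), Finset.mem_product.2 ⟨hi, Finset.mem_univ _⟩, rfl⟩
  obtain ⟨δ, hδ⟩ : ∃ δ : ℝ, δ = ε / (4 * (S.card + 1)) := ⟨_, rfl⟩
  have hδ0 : 0 < δ := by rw [hδ]; positivity
  obtain ⟨M, hM, -, F', hF', hFS'⟩ := hFT (S.image (·⁻¹)) (fun s _ => Subgroup.mem_top s) δ hδ0
  have hF'0 : F'.Nonempty := by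
    obtain ⟨f, ⟨hf, -⟩, -⟩ := hF'.2 1 (Subgroup.mem_top 1)
    exact ⟨f, hf⟩
  obtain ⟨F, hF⟩ : ∃ F : Finset Γ, F = F'.image (·⁻¹) := ⟨_, rfl⟩
  have hF0 : F.Nonempty := by rw [hF]; exact hF'0.image _
  have hFcard : F.card = F'.card := by rw [hF]; exact Finset.card_image_of_injective _ inv_injective
  have hFS : ∀ s ∈ S, ((F.filter fun f => f * s ∉ F).card : ℝ) ≤ δ * F.card := by
    intro s hs
    have h1 := hFS' s⁻¹ (Finset.mem_image_of_mem _ hs)
    have h2 : F.filter (fun f => f * s ∉ F) = (F'.filter fun f => s⁻¹ * f ∉ F').image (·⁻¹) := by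
      ext g
      rw [hF]
      simp only [Finset.mem_filter, Finset.mem_image, not_exists, not_and]
      constructor
      · rintro ⟨⟨f, hf, rfl⟩, h3⟩
        refine ⟨f, ⟨hf, fun h4 => h3 _ h4 ?_⟩, rfl⟩
        group
      · rintro ⟨f, ⟨hf, h3⟩, rfl⟩
        refine ⟨⟨f, hf, rfl⟩, fun f' hf' h4 => h3 ?_⟩
        have : f' = s⁻¹ * f := by
          rw [← inv_inj, h4]
          group
        rw [← this]
        exact hf'
    rw [h2, Finset.card_image_of_injective _ inv_injective, hFcard]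
    convert h1 using 4
  obtain ⟨N, hN1, hN2, hN3⟩ := hK (fun j => D q F σ y (b j)) (fun j => D_local _ _ _ _ _)
  refine ⟨N, hN1, hN2, ?_⟩
  obtain ⟨Z, hZ⟩ : ∃ Z : Set Y, Z = {z : Y | ∃ t ∈ W N (Φ N), ε < dist
    (av w B (fun j i => σ (γ j i)) (fun j => (b j).indicator 1) z t)
    (av w B (fun j i => σ (γ j i)) (fun j => (b j).indicator 1) z (c N))} := ⟨_, rfl⟩
  have hgoal : (Nat.card {z : Y // ∃ t ∈ W N (Φ N), ε < dist
    (av w B (fun j i => σ (γ j i)) (fun j => (b j).indicator 1) z t)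
    (av w B (fun j i => σ (γ j i)) (fun j => (b j).indicator 1) z (c N))} : ℝ) = Nat.card Z := by
    rw [hZ]
    rfl
  rw [hgoal, ← hqY]
  -- the event
  have hsub : D q F σ y Z ⊆ {ω | ∃ t ∈ W N (Φ N),
      ε / 2 < dist (av w B (fun j i => shf (γ j i)) (fun j => (D q F σ y (b j)).indicator 1) ω t)
        (av w B (fun j i => shf (γ j i)) (fun j => (D q F σ y (b j)).indicator 1) ω (c N))} ∪
      (Ti Γ q ∪ ⋃ s ∈ S, Bw q F s) := by
    rintro ω ⟨g, hg, hgm, hz⟩
    by_cases h1 : ω ∈ Ti Γ q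
    · exact Or.inr (Or.inl h1)
    by_cases h2 : ω ∈ ⋃ s ∈ S, Bw q F s
    · exact Or.inr (Or.inr h2)
    left
    rw [hZ] at hz
    obtain ⟨t, ht, h3⟩ := hz
    have hav : ∀ t, (t = c N ∨ t ∈ W N (Φ N)) →
        av w B (fun j i => shf (γ j i)) (fun j => (D q F σ y (b j)).indicator 1) ω t =
        av w B (fun j i => σ (γ j i)) (fun j => (b j).indicator 1) (σ g⁻¹ (y ((fl q (ω g) : ℤ) : ZMod q))) t := by
      intro t ht
      unfold av
      congr 1
      refine Finset.sum_congr rfl fun i hi => Finset.prod_congr rfl fun j _ => ?_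
      have h4 : γ j i ∈ S := hSmem N hN2 t ht i hi j
      have h5 : ω ∉ Bw q F (γ j i) := by
        intro h6
        apply h2
        simp only [mem_iUnion]
        exact ⟨_, h4, h6⟩
      have h6 := equivariant q F σ y (γ j i) ω h1 h5 g hg hgm (b j)
      simp only [indicator_apply, Pi.one_apply]
      simp only [h6]
    refine ⟨t, ht, ?_⟩
    rw [hav t (Or.inr ht), hav (c N) (Or.inl rfl)]
    exact lt_of_le_of_lt (by linarith) h3
  have hlow := D_lower q hq F hF0 σ y Z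
  have hup : bern Γ (D q F σ y Z) ≤ ENNReal.ofReal (ε / 2) + ENNReal.ofReal (ε / 2) := by
    refine (measure_mono hsub).trans ((measure_union_le _ _).trans (add_le_add hN3 ?_))
    refine (measure_union_le _ _).trans ?_
    rw [Ti_null Γ q hq, zero_add]
    refine (measure_biUnion_finset_le _ _).trans ?_
    refine (Finset.sum_le_sum fun s hs => Bw_le q hq F hF0 s δ (hFS s hs)).trans ?_
    rw [Finset.sum_const, nsmul_eq_mul, ← ENNReal.ofReal_natCast, ← ENNReal.ofReal_mul (Nat.cast_nonneg _)]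
    apply ENNReal.ofReal_le_ofReal
    rw [hδ]
    have : (0 : ℝ) < 4 * (S.card + 1) := by positivity
    rw [mul_div_assoc', mul_div_assoc', div_le_div_iff₀ this (by norm_num)]
    nlinarith [Nat.cast_nonneg (α := ℝ) S.card]
  rw [← ENNReal.ofReal_add (by linarith) (by linarith), add_halves] at hup
  have h8 : (Nat.card Z : ℝ≥0∞) ≤ ENNReal.ofReal (ε * q) := by
    refine hlow.trans ?_
    rw [mul_comm ε, ENNReal.ofReal_mul hqR.le, ENNReal.ofReal_natCast]
    gcongr
  rw [← ENNReal.ofReal_natCast, ENNReal.ofReal_le_ofReal_iff (by positivity)] at h8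
  exact h8

end

end Pool.Agent.H201.Bn
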